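import Pool.Agent.Helper20.RL.St2

/-!
# Project RL (MP_cb927e_an), module LXM: Markov at `x`
-/

set_option autoImplicit false

open MeasureTheory Set Filter Topology
open scoped ENNReal RealInnerProductSpace

namespace Pool.Agent.Helper41.RL

open Pool.Agent.Helper68.LM (Pl BB Bd Av HL ft fm DQ)
open Pool.Agent.Helper20.RG Pool.Agent.Helper20.RL

/-- Markov for the number of sets that contain a point (no measurability) -/
theorem markov_count {α : Type*} [MeasurableSpace α] (μ : Measure α) (N : ℕ) (H : ℕ → Set α)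
    {m₁ : ℝ} (hm : 0 < m₁) :
    μ {x | m₁ ≤ ({j : ℕ | j < N ∧ x ∈ H j}.ncard : ℝ)} ≤
      (∑ j ∈ Finset.range N, μ (H j)) / ENNReal.ofReal m₁ := by
  classical
  have h1 : {x | m₁ ≤ ({j : ℕ | j < N ∧ x ∈ H j}.ncard : ℝ)} ⊆
      {x | ENNReal.ofReal m₁ ≤
        ∑ j ∈ Finset.range N, (toMeasurable μ (H j)).indicator (fun _ => (1 : ℝ≥0∞)) x} := by
    intro x hx
    rw [mem_ofPred_eq] at hx ⊢
    set S : Finset ℕ := (Finset.range N).filter (fun j => x ∈ H j) with hS
    have h2 : {j : ℕ | j < N ∧ x ∈ H j} = ↑S := by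
      ext j
      simp [hS]
    rw [h2, ncard_coe_finset] at hx
    calc ENNReal.ofReal m₁ ≤ ENNReal.ofReal (S.card : ℝ) := ENNReal.ofReal_le_ofReal hx
      _ = ∑ j ∈ S, (1 : ℝ≥0∞) := by
        rw [ENNReal.ofReal_natCast, Finset.sum_const, nsmul_eq_mul, mul_one]
      _ = ∑ j ∈ S, (toMeasurable μ (H j)).indicator (fun _ => (1 : ℝ≥0∞)) x := by
        refine Finset.sum_congr rfl fun j hj => ?_
        have h3 : x ∈ H j := (Finset.mem_filter.1 hj).2
        rw [indicator_of_mem (subset_toMeasurable μ _ h3)]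
      _ ≤ _ := Finset.sum_le_sum_of_subset (Finset.filter_subset _ _)
  have hmeas : ∀ j ∈ Finset.range N,
      Measurable (fun x => (toMeasurable μ (H j)).indicator (fun _ => (1 : ℝ≥0∞)) x) :=
    fun j _ => measurable_const.indicator (measurableSet_toMeasurable μ _)
  calc μ {x | m₁ ≤ ({j : ℕ | j < N ∧ x ∈ H j}.ncard : ℝ)} ≤ _ := measure_mono h1
    _ ≤ (∫⁻ x, ∑ j ∈ Finset.range N,
        (toMeasurable μ (H j)).indicator (fun _ => (1 : ℝ≥0∞)) x ∂μ) / ENNReal.ofReal m₁ :=
      meas_ge_le_lintegral_div (Finset.measurable_fun_sum _ hmeas).aemeasurable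
        (by simpa using hm) ENNReal.ofReal_ne_top
    _ = _ := by
      rw [lintegral_finsetSum _ hmeas]
      congr 1
      refine Finset.sum_congr rfl fun j _ => ?_
      rw [lintegral_indicator_const (measurableSet_toMeasurable μ _), one_mul,
        measure_toMeasurable]

theorem hLXM (hLER : StLER) (hLLM : StLLM) (hLUF : StLUF) : StLXM := by
  intro u τ k s c m F η m₁ hu hτ hF hη hm
  obtain ⟨L0, L1, -⟩ := hLLM u hu
  have hlad : -(u : ℤ) ≤ lad u τ := by
    rw [← L0]
    exact L1 (Nat.zero_le τ)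
  have key : ∀ j, volume {x | Hit (s j) (c j) (m j) u k (CU F (s j) (m j) u η τ k) x} ≤
      ENNReal.ofReal (70 / η) * volume (F ∩ UU F (s j) (m j) u η τ k) := by
    intro j
    obtain ⟨h1, -⟩ := hLUF F (s j) (m j) u η τ 0 hu hη hτ
    obtain ⟨hfml, -⟩ := h1 k
    have h2 := hLER F (s j) (η / 2) (η / 2) (UU F (s j) (m j) u η τ k)
      (UU F (s j) (m j) u η τ k) (fun _ => k + lad u τ) (fun _ => k - (m j : ℤ)) (k + lad u τ) 3 2
      hF.1 hfml (by positivity) (by positivity) Subset.rfl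
      (fun z hz => ⟨le_rfl, hfml.rich z hz⟩)
    have h3 : {x | Hit (s j) (c j) (m j) u k (CU F (s j) (m j) u η τ k) x} ⊆
        (fun x => x + (-((2 : ℝ) ^ k • c j))) ⁻¹'
          {x | ∃ z ∈ UU F (s j) (m j) u η τ k, |x 0 - z 0| ≤ (3 : ℕ) * (2 : ℝ) ^ (k + lad u τ) ∧
            |pr (s j) x - pr (s j) z| ≤ (2 : ℕ) * (2 : ℝ) ^ (k - (m j : ℤ))} := by
      rintro x ⟨y, hy, e1, e2⟩
      refine ⟨y, hy.1, ?_, ?_⟩
      · simp only [← sub_eq_add_neg]
        refine e1.trans ?_
        have : (2 : ℝ) ^ (k - (u : ℤ)) ≤ (2 : ℝ) ^ (k + lad u τ) :=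
          zpow_le_zpow_right₀ (by norm_num) (by linarith)
        push_cast
        linarith
      · simp only [← sub_eq_add_neg]
        push_cast
        exact e2
    calc _ ≤ _ := measure_mono h3
      _ = _ := measure_preimage_add_right _ _ _
      _ ≤ _ := h2
      _ = _ := by
        congr 2
        push_cast
        field_simp
        norm_num
  calc _ ≤ (∑ j ∈ Finset.range (2 ^ u),
        volume {x | Hit (s j) (c j) (m j) u k (CU F (s j) (m j) u η τ k) x}) /
          ENNReal.ofReal m₁ := markov_count volume (2 ^ u)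
            (fun j => {x | Hit (s j) (c j) (m j) u k (CU F (s j) (m j) u η τ k) x}) hm
    _ ≤ (∑ j ∈ Finset.range (2 ^ u),
        ENNReal.ofReal (70 / η) * volume (F ∩ UU F (s j) (m j) u η τ k)) /
          ENNReal.ofReal m₁ := by
      gcongr with j _
      exact key j
    _ = _ := by
      rw [← Finset.mul_sum, ENNReal.div_eq_inv_mul, ← mul_assoc, ← ENNReal.ofReal_inv_of_pos hm,
        ← ENNReal.ofReal_mul (by positivity)]
      congr 2
      field_simp

end Pool.Agent.Helper41.RL
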